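import Pool.Agent.Helper32.S12.ShortRel

/-!
The theorem on short relations for sets of natural numbers.
-/

set_option autoImplicit false

namespace Pool.Agent.Helper32.S12

open Finset Pool.Agent.Helper80.SU

theorem cast_inj : Function.Injective (fun n : ℕ => (n : ℤ)) := fun _ _ h => Int.ofNat.inj h

theorem sum_cast (X : Finset ℕ) : ∑ x ∈ X.image (fun n : ℕ => (n : ℤ)), x = ((X.sum id : ℕ) : ℤ) := by
  rw [Finset.sum_image (fun a _ b _ h => cast_inj h)]
  push_cast
  rfl

theorem diss_image {D : Finset ℕ}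
    (hD : ∀ X Y : Finset ℕ, X ⊆ D → Y ⊆ D → X ≠ Y → X.sum id ≠ Y.sum id) :
    Diss (D.image (fun n : ℕ => (n : ℤ))) := by
  intro X Y hX hY hXY
  obtain ⟨X', hX', rfl⟩ := Finset.subset_image_iff.mp hX
  obtain ⟨Y', hY', rfl⟩ := Finset.subset_image_iff.mp hY
  rw [sum_cast, sum_cast] at hXY
  by_contra hne
  refine hD X' Y' (by exact_mod_cast hX') (by exact_mod_cast hY') (fun h => hne (by rw [h])) ?_
  exact_mod_cast hXY

theorem short_nat (A : Set ℕ) (c : ℝ) (hc : 0 < c)
    (hA : ∀ B : Finset ℕ, (↑B : Set ℕ) ⊆ A →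
      ∃ D : Finset ℕ, D ⊆ B ∧
        (∀ X Y : Finset ℕ, X ⊆ D → Y ⊆ D → X ≠ Y → X.sum id ≠ Y.sum id) ∧
        c * (B.card : ℝ) ≤ (D.card : ℝ)) (L p : ℕ) (hp : 2 * L ≤ 2 ^ p) :
    ∃ F : Fin (2 + 8 * p * ⌈1 / c⌉₊) → Set ℕ,
      (∀ i, ∀ X Y : Finset ℕ, (↑X : Set ℕ) ⊆ F i → (↑Y : Set ℕ) ⊆ F i →
        X ≠ Y → X.card + Y.card ≤ L → X.sum id ≠ Y.sum id) ∧
      A = ⋃ i, F i := by
  classical
  have hCc : 1 ≤ ((⌈1 / c⌉₊ : ℕ) : ℝ) * c := by
    have h := Nat.le_ceil (1 / c)
    rw [div_le_iff₀ hc] at h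
    exact h
  obtain ⟨f, hf⟩ := short_rel ((fun n : ℕ => (n : ℤ)) '' A) ⌈1 / c⌉₊ L p hp (by
    intro B hB
    obtain ⟨B', hB', rfl⟩ := Finset.subset_set_image_iff.mp hB
    obtain ⟨D, hDB, hD, hcard⟩ := hA B' hB'
    refine ⟨D.image (fun n : ℕ => (n : ℤ)), Finset.image_subset_image hDB, diss_image hD, ?_⟩
    rw [Finset.card_image_of_injective _ cast_inj, Finset.card_image_of_injective _ cast_inj]
    have h1 : (B'.card : ℝ) ≤ ((⌈1 / c⌉₊ : ℕ) : ℝ) * (D.card : ℝ) := by
      calc (B'.card : ℝ) = 1 * (B'.card : ℝ) := by ring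
        _ ≤ (((⌈1 / c⌉₊ : ℕ) : ℝ) * c) * (B'.card : ℝ) := by
            exact mul_le_mul_of_nonneg_right hCc (by positivity)
        _ = ((⌈1 / c⌉₊ : ℕ) : ℝ) * (c * (B'.card : ℝ)) := by ring
        _ ≤ ((⌈1 / c⌉₊ : ℕ) : ℝ) * (D.card : ℝ) := mul_le_mul_of_nonneg_left hcard (by positivity)
    exact_mod_cast h1)
  refine ⟨fun i => {n : ℕ | n ∈ A ∧ f (n : ℤ) = i}, ?_, ?_⟩
  · intro i X Y hX hY hne hc heq
    -- reduce to disjoint sets
    have hX' : X \ Y ⊆ X := Finset.sdiff_subset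
    have hY' : Y \ X ⊆ Y := Finset.sdiff_subset
    have hsum : (X \ Y).sum id = (Y \ X).sum id := by
      have h1 : (X \ Y).sum id + (X ∩ Y).sum id = X.sum id := by
        have h := Finset.sum_sdiff (f := id) (Finset.inter_subset_left : X ∩ Y ⊆ X)
        rwa [Finset.sdiff_inter_self_left X Y] at h
      have h2 : (Y \ X).sum id + (X ∩ Y).sum id = Y.sum id := by
        have h := Finset.sum_sdiff (f := id) (Finset.inter_subset_right : X ∩ Y ⊆ Y)
        have e2 : Y \ (X ∩ Y) = Y \ X := by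
          rw [Finset.inter_comm]
          exact Finset.sdiff_inter_self_left Y X
        rwa [e2] at h
      rw [← h1, ← h2] at heq
      exact Nat.add_right_cancel heq
    set Z : Finset ℤ := (X \ Y ∪ Y \ X).image (fun n : ℕ => (n : ℤ)) with hZ
    have hmem : ∀ z ∈ X \ Y ∪ Y \ X, z ∈ A ∧ f (z : ℤ) = i := by
      intro z hz
      rw [Finset.mem_union] at hz
      rcases hz with hz | hz
      · exact hX (Finset.mem_coe.mpr (hX' hz))
      · exact hY (Finset.mem_coe.mpr (hY' hz))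
    have hshort := hf Z (by
      intro z hz
      obtain ⟨n, hn, rfl⟩ := Finset.mem_image.mp (Finset.mem_coe.mp hz)
      exact ⟨n, (hmem n hn).1, rfl⟩) (by
      intro x hx y hy
      obtain ⟨n, hn, rfl⟩ := Finset.mem_image.mp hx
      obtain ⟨m, hm, rfl⟩ := Finset.mem_image.mp hy
      exact (hmem n hn).2.trans (hmem m hm).2.symm)
    refine hshort ((X \ Y).image (fun n : ℕ => (n : ℤ))) ((Y \ X).image (fun n : ℕ => (n : ℤ)))
      (Finset.image_subset_image Finset.subset_union_left)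
      (Finset.image_subset_image Finset.subset_union_right) ?_ ?_ ?_ ?_
    · rw [Finset.disjoint_image cast_inj]
      exact Finset.disjoint_of_subset_right hY' Finset.sdiff_disjoint
    · rw [← Finset.image_union, Finset.image_nonempty]
      by_contra hemp
      rw [Finset.not_nonempty_iff_eq_empty, Finset.union_eq_empty, Finset.sdiff_eq_empty_iff_subset,
        Finset.sdiff_eq_empty_iff_subset] at hemp
      exact hne (Finset.Subset.antisymm hemp.1 hemp.2)
    · rw [Finset.card_image_of_injective _ cast_inj, Finset.card_image_of_injective _ cast_inj]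
      have h1 := Finset.card_le_card hX'
      have h2 := Finset.card_le_card hY'
      omega
    · rw [sum_cast, sum_cast, hsum]
  · ext n
    simp only [Set.mem_iUnion]
    constructor
    · intro h
      exact ⟨_, h, rfl⟩
    · rintro ⟨_, h, _⟩
      exact h

end Pool.Agent.Helper32.S12
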