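import Pool.Agent.Helper80.SU.Size
import Pool.Agent.Helper80.SU.Over
import Pool.Agent.S12.TT
import Pool.Agent.S12.Cpt

/-!
A set of an abelian group all of whose finite subsets contain proportionally large dissociated
subsets is, for every `L`, a union of `O(log L)` sets without relations of length at most `L`.
-/

set_option autoImplicit false

namespace Pool.Agent.Helper32.S12

open Finset Pool.Agent.Helper80.SU

variable {G : Type*} [AddCommGroup G] [DecidableEq G]

/-- triangle inequality for the defect of the overlap -/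
theorem ov_add (f : G →₀ ℕ) (a b : G) :
    ov f a + ov f b ≤ ov f (a + b) + ∑ y ∈ f.support, f y := by
  set T : Finset G := f.support ∪ f.support.image (fun x => x + a) with hT
  have e1 : ∀ v : G, ov f v = ∑ y ∈ T, min (f y) (f (y - v)) := by
    intro v
    unfold ov
    refine Finset.sum_subset Finset.subset_union_left (fun y _ hy => ?_)
    rw [Finsupp.notMem_support_iff] at hy
    simp [hy]
  have hz : ∀ y ∈ T, y ∉ f.support.image (fun x => x + a) → f (y - a) = 0 := by
    intro y _ hy
    by_contra h0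
    refine hy (Finset.mem_image.mpr ⟨y - a, Finsupp.mem_support_iff.mpr h0, by abel⟩)
  have e2 : ov f b = ∑ y ∈ T, min (f (y - a)) (f (y - a - b)) := by
    have h1 : ov f b = ∑ y ∈ f.support.image (fun x => x + a),
        min (f (y - a)) (f (y - a - b)) := by
      rw [Finset.sum_image (fun x _ y _ h => add_right_cancel h)]
      unfold ov
      refine Finset.sum_congr rfl (fun x _ => ?_)
      rw [add_sub_cancel_right]
    rw [h1]
    refine Finset.sum_subset Finset.subset_union_right (fun y hy hy' => ?_)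
    rw [hz y hy hy']
    simp
  have e3 : ∑ y ∈ f.support, f y = ∑ y ∈ T, f (y - a) := by
    have h1 : ∑ y ∈ f.support, f y = ∑ y ∈ f.support.image (fun x => x + a), f (y - a) := by
      rw [Finset.sum_image (fun x _ y _ h => add_right_cancel h)]
      refine Finset.sum_congr rfl (fun x _ => ?_)
      rw [add_sub_cancel_right]
    rw [h1]
    exact Finset.sum_subset Finset.subset_union_right (fun y hy hy' => hz y hy hy')
  rw [e1 a, e2, e1 (a + b), e3, ← Finset.sum_add_distrib, ← Finset.sum_add_distrib]
  refine Finset.sum_le_sum (fun y _ => ?_)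
  have e4 : y - (a + b) = y - a - b := by abel
  rw [e4]
  generalize f y = p
  generalize f (y - a) = r
  generalize f (y - a - b) = s
  omega

theorem ov_neg_ge (f : G →₀ ℕ) (v : G) : ov f v ≤ ov f (-v) := by
  have h := ov_shift_le f f.support v 0
  rw [zero_sub] at h
  refine le_trans (le_of_eq ?_) h
  unfold ov
  refine Finset.sum_congr rfl (fun y _ => ?_)
  rw [sub_zero, min_comm]

theorem ov_zero (f : G →₀ ℕ) : ov f 0 = ∑ y ∈ f.support, f y := by
  unfold ov
  refine Finset.sum_congr rfl (fun y _ => ?_)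
  simp

/-- one element of `S` moves the law of `S` by little -/
theorem ov_mem (q : ℕ) (S : Finset G) (b : G) (hb : b ∈ S) :
    q ^ S.card ≤ ov (law q S) b + q ^ (S.card - 1) := by
  obtain ⟨S', hS', rfl⟩ : ∃ S' : Finset G, b ∉ S' ∧ insert b S' = S :=
    ⟨S.erase b, Finset.notMem_erase b S, Finset.insert_erase hb⟩
  rw [Finset.card_insert_of_notMem hS', Nat.add_sub_cancel]
  set f := law q S' with hf
  set g := law q (insert b S') with hg
  have hgy : ∀ y, g y = ∑ j ∈ range q, f (y - j • b) := fun y => law_insert q S' b hS' y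
  have hlow : ∀ y, ∑ j ∈ Finset.Ico 1 q, f (y - j • b) ≤ min (g y) (g (y - b)) := by
    intro y
    refine le_min ?_ ?_
    · rw [hgy]
      refine Finset.sum_le_sum_of_subset ?_
      intro j hj
      rw [Finset.mem_Ico] at hj
      exact Finset.mem_range.mpr hj.2
    · rw [hgy]
      rw [Finset.sum_Ico_eq_sum_range]
      refine le_trans (le_of_eq ?_) (Finset.sum_le_sum_of_subset
        (show range (q - 1) ⊆ range q from Finset.range_subset_range.mpr (Nat.sub_le q 1)))
      refine Finset.sum_congr rfl (fun j _ => ?_)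
      congr 1
      rw [add_smul, one_smul]
      abel
  have hsub : ∀ j ∈ Finset.Ico 1 q, f.support.image (fun x => x + j • b) ⊆ g.support := by
    intro j hj y hy
    obtain ⟨x, hx, rfl⟩ := Finset.mem_image.1 hy
    rw [Finsupp.mem_support_iff] at hx ⊢
    rw [hgy]
    intro h0
    have := (Finset.sum_eq_zero_iff.1 h0) j (Finset.mem_range.mpr (Finset.mem_Ico.mp hj).2)
    simp at this
    exact hx this
  have h1 : (q - 1) * q ^ S'.card ≤ ov g b := by
    calc (q - 1) * q ^ S'.card = ∑ j ∈ Finset.Ico 1 q, ∑ x ∈ f.support, f x := by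
          rw [Finset.sum_const, Nat.card_Ico, smul_eq_mul, law_mass]
      _ ≤ ∑ j ∈ Finset.Ico 1 q, ∑ y ∈ g.support, f (y - j • b) := by
          refine Finset.sum_le_sum (fun j hj => ?_)
          refine le_trans ?_ (Finset.sum_le_sum_of_subset (hsub j hj))
          rw [Finset.sum_image (fun x _ y _ h => add_left_injective _ h)]
          refine le_of_eq (Finset.sum_congr rfl (fun x _ => ?_))
          rw [add_sub_cancel_right]
      _ = ∑ y ∈ g.support, ∑ j ∈ Finset.Ico 1 q, f (y - j • b) := Finset.sum_comm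
      _ ≤ ov g b := Finset.sum_le_sum (fun y _ => hlow y)
  rcases Nat.eq_zero_or_pos q with hq | hq
  · subst hq
    simp
  · obtain ⟨r, rfl⟩ : ∃ r, q = r + 1 := ⟨q - 1, by omega⟩
    rw [Nat.add_sub_cancel] at h1
    calc (r + 1) ^ (S'.card + 1) = r * (r + 1) ^ S'.card + (r + 1) ^ S'.card := by ring
      _ ≤ _ := Nat.add_le_add_right h1 _

/-- a signed sum of `k` elements of `S` moves the law of `S` by at most `k / q` -/
theorem ov_signed (q : ℕ) (S P N : Finset G) (hP : P ⊆ S) (hN : N ⊆ S) :
    q ^ S.card ≤ ov (law q S) (∑ x ∈ P, x - ∑ x ∈ N, x) + (P.card + N.card) * q ^ (S.card - 1) := by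
  have h1 : ∀ P : Finset G, P ⊆ S →
      q ^ S.card ≤ ov (law q S) (∑ x ∈ P, x) + P.card * q ^ (S.card - 1) := by
    intro P
    induction P using Finset.induction_on with
    | empty =>
      intro _
      rw [Finset.sum_empty, ov_zero, law_mass]
      simp
    | insert b P hb ih =>
      intro hP
      have h2 := ih ((Finset.subset_insert b P).trans hP)
      have h3 := ov_mem q S b (hP (Finset.mem_insert_self b P))
      have h4 := ov_add (law q S) b (∑ x ∈ P, x)
      rw [law_mass] at h4
      rw [Finset.sum_insert hb, Finset.card_insert_of_notMem hb, add_mul, one_mul]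
      omega
  induction N using Finset.induction_on with
  | empty =>
    rw [Finset.sum_empty, sub_zero, Finset.card_empty, add_zero]
    exact h1 P hP
  | insert b N hb ih =>
    have h2 := ih ((Finset.subset_insert b N).trans hN)
    have h3 := ov_mem q S b (hN (Finset.mem_insert_self b N))
    have h5 := ov_neg_ge (law q S) b
    have h4 := ov_add (law q S) (-b) (∑ x ∈ P, x - ∑ x ∈ N, x)
    rw [law_mass] at h4
    have e : -b + (∑ x ∈ P, x - ∑ x ∈ N, x) = ∑ x ∈ P, x - ∑ x ∈ insert b N, x := by
      rw [Finset.sum_insert hb]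
      abel
    rw [e] at h4
    rw [Finset.card_insert_of_notMem hb, ← add_assoc, add_mul _ 1, one_mul]
    omega

/-- `u` is a signed sum of less than `L` elements of `S` -/
def Abs (L : ℕ) (S : Finset G) (u : G) : Prop :=
  ∃ P N : Finset G, P ⊆ S ∧ N ⊆ S ∧ P.card + N.card < L ∧ u = ∑ x ∈ P, x - ∑ x ∈ N, x

/-- a dissociated set of elements which are short signed sums of `S` is small -/
theorem abs_card (L p : ℕ) (hp : 2 * L ≤ 2 ^ p) (S D : Finset G) (hD : Diss D)
    (h : ∀ u ∈ D, Abs L S u) : D.card ≤ 4 * p * S.card := by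
  rcases S.eq_empty_or_nonempty with rfl | hS
  · -- only the element zero can be absorbed
    have h0 : D = ∅ := by
      rw [Finset.eq_empty_iff_forall_notMem]
      intro u hu
      obtain ⟨P, N, hP, hN, -, rfl⟩ := h u hu
      rw [Finset.subset_empty.mp hP, Finset.subset_empty.mp hN] at hu
      simp only [Finset.sum_empty, sub_zero] at hu
      have := hD {0} ∅ (by simpa using hu) (Finset.empty_subset _) (by simp)
      simp at this
    rw [h0]
    simp
  have hSc : 0 < S.card := hS.card_pos
  have h1 := overlap_sum (law (2 ^ p) S) D hD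
  rw [law_mass] at h1
  have hlog : Nat.log 2 (law (2 ^ p) S).support.card ≤ p * S.card := by
    refine le_trans (Nat.log_mono_right (law_support_le (2 ^ p) S)) ?_
    rw [← pow_mul, Nat.log_pow (by norm_num)]
  have h2 : ∀ u ∈ D, (2 ^ p) ^ S.card ≤ 2 * ov (law (2 ^ p) S) u := by
    intro u hu
    obtain ⟨P, N, hP, hN, hc, rfl⟩ := h u hu
    have h3 := ov_signed (2 ^ p) S P N hP hN
    have h4 : 2 * ((P.card + N.card) * (2 ^ p) ^ (S.card - 1)) ≤ (2 ^ p) ^ S.card := by
      calc 2 * ((P.card + N.card) * (2 ^ p) ^ (S.card - 1))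
          = (2 * (P.card + N.card)) * (2 ^ p) ^ (S.card - 1) := by ring
        _ ≤ 2 ^ p * (2 ^ p) ^ (S.card - 1) := Nat.mul_le_mul_right _ (by omega)
        _ = (2 ^ p) ^ S.card := by
            rw [← pow_succ']
            congr 1
            omega
    omega
  have h3 : D.card * (2 ^ p) ^ S.card ≤ 2 * ∑ u ∈ D, ov (law (2 ^ p) S) u := by
    rw [Finset.mul_sum, ← smul_eq_mul, ← Finset.sum_const]
    exact Finset.sum_le_sum h2
  have h4 : D.card * (2 ^ p) ^ S.card ≤ (4 * p * S.card) * (2 ^ p) ^ S.card := by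
    calc D.card * (2 ^ p) ^ S.card ≤ 2 * ∑ u ∈ D, ov (law (2 ^ p) S) u := h3
      _ ≤ 2 * (2 * (Nat.log 2 (law (2 ^ p) S).support.card * (2 ^ p) ^ S.card)) :=
          Nat.mul_le_mul_left _ h1
      _ ≤ 2 * (2 * ((p * S.card) * (2 ^ p) ^ S.card)) :=
          Nat.mul_le_mul_left _ (Nat.mul_le_mul_left _ (Nat.mul_le_mul_right _ hlog))
      _ = (4 * p * S.card) * (2 ^ p) ^ S.card := by ring
  exact Nat.le_of_mul_le_mul_right h4 (by positivity)

theorem abs_mono (L : ℕ) (S T : Finset G) (u : G) (h : S ⊆ T) (hu : Abs L S u) : Abs L T u := by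
  obtain ⟨P, N, hP, hN, hc, e⟩ := hu
  exact ⟨P, N, hP.trans h, hN.trans h, hc, e⟩

/-- No relation of length at most `L` in `B`. -/
def NoShort (L : ℕ) (B : Finset G) : Prop :=
  ∀ X Y : Finset G, X ⊆ B → Y ⊆ B → Disjoint X Y → (X ∪ Y).Nonempty → X.card + Y.card ≤ L →
    ∑ x ∈ X, x ≠ ∑ y ∈ Y, y

theorem finite_short (C L p K : ℕ) (hp : 2 * L ≤ 2 ^ p) (hK : 2 * (1 + 4 * p * C) ≤ K)
    (V : Finset G)
    (hV : ∀ B : Finset G, B ⊆ V → ∃ D : Finset G, D ⊆ B ∧ Diss D ∧ B.card ≤ C * D.card) :
    ∃ f : G → Fin K, ∀ B : Finset G, B ⊆ V → (∀ x ∈ B, ∀ y ∈ B, f x = f y) → NoShort L B := by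
  classical
  obtain ⟨f, hf⟩ := Pool.Agent.S12.absorb V (fun S u => Abs L S u)
    (fun S T u h hu => abs_mono L S T u h hu) ((4 * p * C : ℕ) : ℝ) K
    (by exact_mod_cast hK) (by omega) (by
      intro S T _ hT hab
      obtain ⟨D, hDT, hD, hc⟩ := hV T hT
      have h1 := abs_card L p hp S D hD (fun u hu => hab u (hDT hu))
      have h2 : T.card ≤ 4 * p * C * S.card := by
        calc T.card ≤ C * D.card := hc
          _ ≤ C * (4 * p * S.card) := Nat.mul_le_mul_left _ h1
          _ = 4 * p * C * S.card := by ring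
      exact_mod_cast h2)
  refine ⟨f, fun B hB hmono X Y hX hY hdis hne hc heq => ?_⟩
  obtain ⟨u, hu, hnot⟩ := hf (X ∪ Y) ((Finset.union_subset hX hY).trans hB) hne
    (fun x hx y hy => hmono x (Finset.union_subset hX hY hx) y (Finset.union_subset hX hY hy))
  apply hnot
  rw [Finset.mem_union] at hu
  rcases hu with hu | hu
  · have huY : u ∉ Y := Finset.disjoint_left.mp hdis hu
    refine ⟨Y, X.erase u, ?_, ?_, ?_, ?_⟩
    · intro y hy
      refine Finset.mem_erase.mpr ⟨fun h => huY (h ▸ hy), Finset.mem_union_right _ hy⟩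
    · exact Finset.erase_subset_erase _ Finset.subset_union_left
    · have := Finset.card_erase_of_mem hu
      have := Finset.card_pos.mpr ⟨u, hu⟩
      omega
    · rw [← heq, ← Finset.add_sum_erase X (fun x => x) hu]
      abel
  · have huX : u ∉ X := Finset.disjoint_right.mp hdis hu
    refine ⟨X, Y.erase u, ?_, ?_, ?_, ?_⟩
    · intro y hy
      refine Finset.mem_erase.mpr ⟨fun h => huX (h ▸ hy), Finset.mem_union_left _ hy⟩
    · exact Finset.erase_subset_erase _ Finset.subset_union_right
    · have := Finset.card_erase_of_mem hu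
      have := Finset.card_pos.mpr ⟨u, hu⟩
      omega
    · rw [heq, ← Finset.add_sum_erase Y (fun x => x) hu]
      abel

/-- **Short relations need only logarithmically many colours.** In any abelian group: if every
finite part `B` of `W` contains a dissociated set `D` with `|B| ≤ C |D|` then `W` is a union of
`2 + 8 C p` sets without relations of length at most `L`, where `2 ^ p ≥ 2 L`. -/
theorem short_rel (W : Set G) (C L p : ℕ) (hp : 2 * L ≤ 2 ^ p)
    (hW : ∀ B : Finset G, (B : Set G) ⊆ W →
      ∃ D : Finset G, D ⊆ B ∧ Diss D ∧ B.card ≤ C * D.card) :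
    ∃ f : G → Fin (2 + 8 * p * C), ∀ B : Finset G, (B : Set G) ⊆ W →
      (∀ x ∈ B, ∀ y ∈ B, f x = f y) → NoShort L B := by
  classical
  exact Pool.Agent.S12.compactness (2 + 8 * p * C) W (fun B => NoShort L B) (fun V hV =>
    finite_short C L p _ hp (le_of_eq (by ring)) V
      (fun B hB => hW B (fun x hx => hV (Finset.mem_coe.mpr (hB (Finset.mem_coe.mp hx))))))

end Pool.Agent.Helper32.S12
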