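import Pool.Agent.Helper32.S12.ShortRel
import Pool.Agent.S12.SidonThm

/-!
Short relations in Sidon sets: logarithmically many classes.
-/

set_option autoImplicit false

namespace Pool.Agent.Helper32.S12

open Finset Pool.Agent.Helper80.SU Pool.Agent.Helper72.Sidon

/-- a set without short relations: all its small subsets are dissociated -/
theorem NoShort.diss {A : Type*} [AddCommGroup A] [DecidableEq A] {L : ℕ} {B : Finset A}
    (h : NoShort L B) (hB : B.card ≤ L) : Diss B := by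
  intro X Y hX hY heq
  by_contra hne
  have hsum : ∑ x ∈ X \ Y, x = ∑ y ∈ Y \ X, y := by
    have h1 : ∑ x ∈ X \ Y, x + ∑ x ∈ X ∩ Y, x = ∑ x ∈ X, x := by
      have h := Finset.sum_sdiff (f := fun x : A => x) (Finset.inter_subset_left : X ∩ Y ⊆ X)
      rwa [Finset.sdiff_inter_self_left X Y] at h
    have h2 : ∑ x ∈ Y \ X, x + ∑ x ∈ X ∩ Y, x = ∑ x ∈ Y, x := by
      have h := Finset.sum_sdiff (f := fun x : A => x) (Finset.inter_subset_right : X ∩ Y ⊆ Y)
      have e2 : Y \ (X ∩ Y) = Y \ X := by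
        rw [Finset.inter_comm]
        exact Finset.sdiff_inter_self_left Y X
      rwa [e2] at h
    rw [← h1, ← h2] at heq
    exact add_right_cancel heq
  refine h (X \ Y) (Y \ X) (Finset.sdiff_subset.trans hX) (Finset.sdiff_subset.trans hY)
    (Finset.disjoint_of_subset_right Finset.sdiff_subset Finset.sdiff_disjoint) ?_ ?_ hsum
  · by_contra hemp
    rw [Finset.not_nonempty_iff_eq_empty, Finset.union_eq_empty, Finset.sdiff_eq_empty_iff_subset,
      Finset.sdiff_eq_empty_iff_subset] at hemp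
    exact hne (Finset.Subset.antisymm hemp.1 hemp.2)
  · rw [← Finset.card_union_of_disjoint
      (Finset.disjoint_of_subset_right Finset.sdiff_subset Finset.sdiff_disjoint)]
    refine le_trans (Finset.card_le_card ?_) hB
    exact Finset.union_subset (Finset.sdiff_subset.trans hX) (Finset.sdiff_subset.trans hY)

theorem sidon_short (C : ℝ) :
    ∃ K : ℕ, ∀ (G : Type*) [CommGroup G] [TopologicalSpace G] (Λ : Set (PontryaginDual G)),
      1 ∉ Λ → IsSidonWith C Λ → ∀ L : ℕ,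
        ∃ E : Fin (K * (Nat.log 2 L + 1)) → Set (PontryaginDual G), Λ = ⋃ i, E i ∧
          ∀ (i : Fin (K * (Nat.log 2 L + 1))) (B : Finset (PontryaginDual G)),
            (B : Set (PontryaginDual G)) ⊆ E i → B.card ≤ L →
              QuasiIndependent (B : Set (PontryaginDual G)) := by
  classical
  obtain ⟨c, hc, hsid⟩ := Pool.Agent.S12.sidon_prop C
  have hCc : 1 ≤ ((⌈1 / c⌉₊ : ℕ) : ℝ) * c := by
    have h := Nat.le_ceil (1 / c)
    rw [div_le_iff₀ hc] at h
    exact h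
  refine ⟨2 + 16 * ⌈1 / c⌉₊, fun G _ _ Λ h1 hS L => ?_⟩
  have hp : 2 * L ≤ 2 ^ (Nat.log 2 L + 2) := by
    have h : L < 2 ^ (Nat.log 2 L + 1) := Nat.lt_pow_succ_log_self (by norm_num) L
    have e : 2 ^ (Nat.log 2 L + 2) = 2 * 2 ^ (Nat.log 2 L + 1) := by ring
    omega
  obtain ⟨col, hcol⟩ := short_rel {x : Additive (PontryaginDual G) | x.toMul ∈ Λ} ⌈1 / c⌉₊ L
    (Nat.log 2 L + 2) hp (by
      intro B hB
      obtain ⟨D, hDB, hD, hcard⟩ := hsid G Λ h1 hS B fun b hb => hB hb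
      refine ⟨D, hDB, hD, ?_⟩
      have h1 : (B.card : ℝ) ≤ ((⌈1 / c⌉₊ : ℕ) : ℝ) * (D.card : ℝ) := by
        calc (B.card : ℝ) = 1 * (B.card : ℝ) := by ring
          _ ≤ (((⌈1 / c⌉₊ : ℕ) : ℝ) * c) * (B.card : ℝ) := by
              exact mul_le_mul_of_nonneg_right hCc (by positivity)
          _ = ((⌈1 / c⌉₊ : ℕ) : ℝ) * (c * (B.card : ℝ)) := by ring
          _ ≤ ((⌈1 / c⌉₊ : ℕ) : ℝ) * (D.card : ℝ) := mul_le_mul_of_nonneg_left hcard (by positivity)
      exact_mod_cast h1)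
  have hle : 2 + 8 * (Nat.log 2 L + 2) * ⌈1 / c⌉₊ ≤ (2 + 16 * ⌈1 / c⌉₊) * (Nat.log 2 L + 1) := by
    nlinarith [Nat.zero_le (Nat.log 2 L), Nat.zero_le (⌈1 / c⌉₊ * Nat.log 2 L)]
  refine ⟨fun i => {γ | γ ∈ Λ ∧ Fin.castLE hle (col (Additive.ofMul γ)) = i}, ?_, ?_⟩
  · ext γ
    rw [Set.mem_iUnion]
    exact ⟨fun h => ⟨_, h, rfl⟩, fun ⟨_, h, _⟩ => h⟩
  intro i B hB hcard
  set B' : Finset (Additive (PontryaginDual G)) := B.map Additive.ofMul.toEmbedding with hB'
  have hB'c : B'.card ≤ L := by rw [hB', card_map]; exact hcard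
  have hns := hcol B' (by
    intro x hx
    rw [mem_coe, hB', mem_map] at hx
    obtain ⟨g, hg, rfl⟩ := hx
    exact (hB hg).1) (by
    intro x hx y hy
    rw [hB', mem_map] at hx hy
    obtain ⟨g, hg, rfl⟩ := hx
    obtain ⟨g', hg', rfl⟩ := hy
    have h2 := (hB hg).2.trans (hB hg').2.symm
    exact Fin.castLE_injective hle h2)
  refine Pool.Agent.S12.quasi_of_dis (D := B') ?_ (NoShort.diss hns hB'c)
  intro g hg
  rw [hB', mem_map]
  exact ⟨g, hg, rfl⟩

end Pool.Agent.Helper32.S12
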